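import Pool.Agent.Zk51.SZ.Main

/-!
# Soulé's conjecture on the orders of zeta functions for the schemes generated by rings of integers and
# by schemes over finite fields, and its invariance

We consider all separated schemes `X : V` of finite type over `ℤ`, with their closed points
(`pts`, `N`), the zeta functions `ζ(X, s)` defined by the Euler products, and the motivic homology groups
`M X i n = H_i^M(X, ℚ(n)) = CH_n(X, i - 2 n) ⊗ ℚ`. If `X` is regular of dimension `d` then
`H_i^M(X, ℚ(0)) = H^(2 d - i)(X, ℚ(d)) = K_i(X)^(d)`, the group of the question. Let

  `χ(X, n) = ∑_i (-1)^(i+1) dim H_i^M(X, ℚ(n))`

if these groups are finite-dimensional and zero for almost all `i` (`IsFin X n`). The conjecture at the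
integer `n` (`Soule X n`) says that the order of each meromorphic continuation of `ζ(X, s)` at `n` is
`χ(X, n)`. The question is the case `n = 0` for regular connected `X` that are flat and projective over
`ℤ`.

The class `𝒜` (`Schemes.Generated A (Base A D)`) is the smallest class of schemes of finite type
over `ℤ` that contains

* the spectra of the rings of integers of all number fields;
* for all primes `p`, the class (`IsKnown`) of schemes over finite fields of characteristic `p` which is
  generated, under localisation and direct summands of sums of twists of motives, by the abelian
  varieties of dimension at most five, the abelian varieties which are over an algebraic closure
  isogenous to products of a supersingular one and of ones of dimension at most three (with a condition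
  on the factors of dimension three, see `SmallFactors`; for instance all products of elliptic
  curves, abelian surfaces and abelian threefolds of `p`-rank two), and all schemes which are known to
  satisfy the conjecture of Tate and Beilinson (for instance all curves);

that contains all of a closed subscheme `Z` of `X`, `X` and `X ∖ Z` if it contains two of them, and that
contains `X` if a multiple of the motive of `X` (with compact support) can be expressed by twists of
motives of members, that is if `M(X)^k ⊕ ⨁ M(W_l)(b_l) = ⨁ M(Y_l)(a_l)` with members `W_l`, `Y_l`
(`IsRelation`). For example `𝒜` contains

* projective and affine bundles over members, blow-ups of members in regular centres which are members,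
  open subschemes with complements in `𝒜`, all schemes stratified by members;
* all schemes over an open part of a ring of integers whose motive is an Artin-Tate motive (split flag
  and toric schemes and their twisted forms; by the theorem of Artin on induced characters a multiple
  of an Artin motive is a difference of sums of motives of rings of integers);
* hence ALL regular `X`, flat and projective over `ℤ`, of dimension two with a generic fibre of genus
  zero, with any bad fibres; all `X` of any dimension whose generic fibre has an Artin-Tate motive (for
  instance a geometrically rational surface, a quadric, a twisted form of a flag or toric variety), if the
  finitely many bad fibres are in the second class above; for example the blow-up of a projective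
  space over a ring of integers in abelian varieties of dimension at most five contained in closed
  fibres.

**Theorem.** (1) For all `X` in `𝒜` and all integers `n` the groups `H_i^M(X, ℚ(n))` are
finite-dimensional, and zero for almost all `i`, and the order of `ζ(X, s)` at `n` is `χ(X, n)`. A
power of `ζ(X, s)` is meromorphic on the complex plane.

(2) Let `X` and `X'` be any two schemes of finite type over `ℤ` with isomorphic open subschemes `U`
whose complements are in `𝒜`. Then `IsFin X n` and `IsFin X' n` are equivalent, and if they hold and
both zeta functions have meromorphic continuations `f`, `f'` to the same neighbourhood of `n` then

  `ord f - χ(X, n) = ord f' - χ(X', n)`.

In particular the conjecture for `X` at `n` is equivalent to that for `X'`.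

So, with no hypothesis on the generic fibre: for regular projective arithmetic surfaces the question
depends only on the generic fibre, since the closed fibres are curves. And for `X` of dimension at
most three it is invariant under blow-ups in all regular centres: the centres of codimension at least
two are closed points, curves over finite fields or spectra of rings of integers. The question for a
scheme `X` of arbitrary dimension depends only on the part of good reduction if the bad fibres are in
the second class above.

The file of the problem lists the case of rings of integers. For geometrically cellular schemes over
number rings see Morin, Zeta functions of regular arithmetic schemes at s = 0; new are the abelian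
varieties in the fibres, the closure of the class under relations (twisted forms), the arbitrary bad
fibres, and the invariance (2). The data and their known properties:
`IsSchemes` (convergence of the Euler product), `IsIntegers` (theorems of Dirichlet, Hecke and Borel for
the Dedekind zeta function and for the K-groups; the identity of the conjecture is then checked in all
degrees), `IsFibres` (the formula of Grothendieck for zeta functions over finite fields, finiteness of
`ℓ`-adic homology), `IsTriple` (closed points of `X`, long exact localisation sequence),
`IsGoodAbelian` (abelian varieties over finite fields as reductions of abelian varieties of CM type, with
the formal properties of Chow groups, and the algebraicity of classes by Tate, Markman, Ramón Marí).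

Idea of the proof. Euler characteristics and orders are additive. For schemes over finite fields in the
class of Tate and Beilinson the dimensions of the motivic homology groups are the multiplicities of
the eigenvalue one of the Frobenius; this uses the results on abelian varieties of the starting files
(`Pool.Agent.R937`, `Pool.Agent.W495.FM`). As `L`-functions of Artin motives are not products of zeta
functions, one works with powers of zeta functions; a zeta function which has itself a
continuation to a domain then has the correct order by the identity theorem.
-/

set_option autoImplicit false

namespace Pool.Agent.Results.MP_f3836a_nt.CutAndPaste

open Pool.Agent.Zk51.SZ

/-- The conjecture of Soulé for the schemes generated by rings of integers and by schemes over finite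
fields, and its invariance. -/
theorem result {V : Type} (A : Schemes V) (hA : A.IsSchemes)
    (D : ∀ (p : ℕ) [Fact p.Prime], Fibres V p)
    (hD : ∀ (p : ℕ) [Fact p.Prime], (D p).IsFibres A) :
    (∀ X, Schemes.Generated A (Base A D) X →
      A.HasMeroPower X ∧ ∀ n, A.IsFin X n ∧ A.Soule X n) ∧
    ∀ Z X Z' X' U, A.IsTriple Z X U → A.IsTriple Z' X' U → Schemes.Generated A (Base A D) Z →
      Schemes.Generated A (Base A D) Z' → ∀ n : ℤ, (A.IsFin X n ↔ A.IsFin X' n) ∧
        (A.IsFin X n → ∀ E f f', A.IsCont X n E f → A.IsCont X' n E f' →
          meromorphicOrderAt f (n : ℂ) + ((A.chi X' n : ℤ) : WithTop ℤ) =
            meromorphicOrderAt f' (n : ℂ) + ((A.chi X n : ℤ) : WithTop ℤ)) :=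
  ⟨fun _ hX => ⟨(good_generated hA hD hX).power, fun n =>
      ⟨(good_generated hA hD hX).1 n, (good_generated hA hD hX).soule n⟩⟩,
    fun _ _ _ _ _ h h' hZ hZ' n =>
      defect_eq hA h h' (good_generated hA hD hZ) (good_generated hA hD hZ') n⟩

end Pool.Agent.Results.MP_f3836a_nt.CutAndPaste
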